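import Pool.Agent.helper18.GN.MenuV
import Pool.Agent.helper9.GN.GN5b
import Pool.Agent.helper9.GN.GN9a
import Pool.Agent.helper63.GN.GN9b

/-!
# GNU project (MP_d11331_al): the menu of order `v ^ 2`, final form
-/

namespace Pool.Agent.helper74.GN

theorem menuV {B C D w v : ℕ} (h : HypQ B C D) (hv : HypV B C D w v) :
    ∃ M : Menu B C D (v ^ 2), IsV M := by
  have hB := h.B7
  have hC := h.C7
  have hD := h.D7
  exact menuV_of h hv (p2 hv.pv) (blockVC h.pC hv.pv (by omega) hv.vC)
    (blockVBD h.pB h.pC h.pD hv.pv ⟨by omega, by omega, by omega⟩ h.BC h.BD h.CD hv.vB hv.vD hv.vC)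

end Pool.Agent.helper74.GN
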