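import Pool.Agent.helper74.GN.Defs

/-!
# GNU project (MP_d11331_al): homomorphisms from `C_B × C_C × C_D`
-/

namespace Pool.Agent.helper74.GN

/-- The three generators of `Q`. -/
def gB (B C D : ℕ) : Q B C D := (Multiplicative.ofAdd 1, 1, 1)
/-- The second generator. -/
def gC (B C D : ℕ) : Q B C D := (1, Multiplicative.ofAdd 1, 1)
/-- The third generator. -/
def gD (B C D : ℕ) : Q B C D := (1, 1, Multiplicative.ofAdd 1)

theorem ofAdd_one_pow {n : ℕ} [NeZero n] (x : Multiplicative (ZMod n)) :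
    (Multiplicative.ofAdd (1 : ZMod n)) ^ (Multiplicative.toAdd x).val = x := by
  rw [← ofAdd_nsmul]
  simp

theorem Q_eq {B C D : ℕ} [NeZero B] [NeZero C] [NeZero D] (q : Q B C D) :
    q = gB B C D ^ (Multiplicative.toAdd q.1).val * gC B C D ^ (Multiplicative.toAdd q.2.1).val *
      gD B C D ^ (Multiplicative.toAdd q.2.2).val := by
  obtain ⟨x, y, z⟩ := q
  simp [gB, gC, gD, ofAdd_one_pow]

theorem Q_hom_ext {B C D : ℕ} [NeZero B] [NeZero C] [NeZero D] {M : Type} [Group M]
    (f g : Q B C D →* M) (h1 : f (gB B C D) = g (gB B C D)) (h2 : f (gC B C D) = g (gC B C D))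
    (h3 : f (gD B C D) = g (gD B C D)) : f = g := by
  refine MonoidHom.ext fun q => ?_
  rw [Q_eq q]
  simp [h1, h2, h3]

theorem gB_pow (B C D : ℕ) : gB B C D ^ B = 1 := by
  have : (Multiplicative.ofAdd (1 : ZMod B)) ^ B = 1 := by
    rw [← ofAdd_nsmul]; simp
  simp [gB, this]

theorem gC_pow (B C D : ℕ) : gC B C D ^ C = 1 := by
  have : (Multiplicative.ofAdd (1 : ZMod C)) ^ C = 1 := by
    rw [← ofAdd_nsmul]; simp
  simp [gC, this]

theorem gD_pow (B C D : ℕ) : gD B C D ^ D = 1 := by
  have : (Multiplicative.ofAdd (1 : ZMod D)) ^ D = 1 := by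
    rw [← ofAdd_nsmul]; simp
  simp [gD, this]

theorem tw_gB {B C D : ℕ} [NeZero B] (θ : Th B C D) :
    tw θ (gB B C D) = gB B C D ^ (θ.1 : ZMod B).val := by
  have := ofAdd_one_pow (Multiplicative.ofAdd (θ.1 : ZMod B))
  simp [gB] at this ⊢
  exact this.symm

theorem tw_gC {B C D : ℕ} [NeZero C] (θ : Th B C D) :
    tw θ (gC B C D) = gC B C D ^ (θ.2.1 : ZMod C).val := by
  have := ofAdd_one_pow (Multiplicative.ofAdd (θ.2.1 : ZMod C))
  simp [gC] at this ⊢
  exact this.symm

theorem tw_gD {B C D : ℕ} [NeZero D] (θ : Th B C D) :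
    tw θ (gD B C D) = gD B C D ^ (θ.2.2 : ZMod D).val := by
  have := ofAdd_one_pow (Multiplicative.ofAdd (θ.2.2 : ZMod D))
  simp [gD] at this ⊢
  exact this.symm

/-- The homomorphism with given pairwise commuting images of the generators. -/
def act {B C D : ℕ} [NeZero B] [NeZero C] [NeZero D] {M : Type} [Group M] (b c d : M)
    (hb : b ^ B = 1) (hc : c ^ C = 1) (hd : d ^ D = 1) (hbc : Commute b c) (hbd : Commute b d)
    (hcd : Commute c d) : Q B C D →* M where
  toFun q := b ^ (Multiplicative.toAdd q.1).val * c ^ (Multiplicative.toAdd q.2.1).val *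
    d ^ (Multiplicative.toAdd q.2.2).val
  map_one' := by simp
  map_mul' p q := by
    obtain ⟨x, y, z⟩ := p
    obtain ⟨x', y', z'⟩ := q
    simp only [Prod.mk_mul_mk, toAdd_mul, ZMod.val_add]
    rw [← pow_eq_pow_mod _ hb, ← pow_eq_pow_mod _ hc, ← pow_eq_pow_mod _ hd, pow_add, pow_add,
      pow_add]
    have e1 := (hbc.pow_pow (Multiplicative.toAdd x').val (Multiplicative.toAdd y).val).eq
    have e2 := (hbd.pow_pow (Multiplicative.toAdd x').val (Multiplicative.toAdd z).val).eq
    have e3 := (hcd.pow_pow (Multiplicative.toAdd y').val (Multiplicative.toAdd z).val).eq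
    generalize b ^ (Multiplicative.toAdd x).val = b1 at *
    generalize b ^ (Multiplicative.toAdd x').val = b2 at *
    generalize c ^ (Multiplicative.toAdd y).val = c1 at *
    generalize c ^ (Multiplicative.toAdd y').val = c2 at *
    generalize d ^ (Multiplicative.toAdd z).val = d1 at *
    generalize d ^ (Multiplicative.toAdd z').val = d2 at *
    calc b1 * b2 * (c1 * c2) * (d1 * d2) = b1 * (b2 * c1) * (c2 * d1) * d2 := by group
      _ = b1 * c1 * (b2 * d1) * c2 * d2 := by rw [e1, e3]; group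
      _ = b1 * c1 * d1 * (b2 * c2 * d2) := by rw [e2]; group

theorem act_gB {B C D : ℕ} [NeZero B] [NeZero C] [NeZero D] (hB : B ≠ 1) {M : Type} [Group M]
    (b c d : M) (hb : b ^ B = 1) (hc : c ^ C = 1) (hd : d ^ D = 1) (hbc : Commute b c)
    (hbd : Commute b d) (hcd : Commute c d) :
    act b c d hb hc hd hbc hbd hcd (gB B C D) = b := by
  simp [act, gB, ZMod.val_one'' hB]

theorem act_gC {B C D : ℕ} [NeZero B] [NeZero C] [NeZero D] (hC : C ≠ 1) {M : Type} [Group M]
    (b c d : M) (hb : b ^ B = 1) (hc : c ^ C = 1) (hd : d ^ D = 1) (hbc : Commute b c)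
    (hbd : Commute b d) (hcd : Commute c d) :
    act b c d hb hc hd hbc hbd hcd (gC B C D) = c := by
  simp [act, gC, ZMod.val_one'' hC]

theorem act_gD {B C D : ℕ} [NeZero B] [NeZero C] [NeZero D] (hD : D ≠ 1) {M : Type} [Group M]
    (b c d : M) (hb : b ^ B = 1) (hc : c ^ C = 1) (hd : d ^ D = 1) (hbc : Commute b c)
    (hbd : Commute b d) (hcd : Commute c d) :
    act b c d hb hc hd hbc hbd hcd (gD B C D) = d := by
  simp [act, gD, ZMod.val_one'' hD]

/-- Intertwining can be checked on the generators. -/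
theorem inter_of_gen {B C D : ℕ} [NeZero B] [NeZero C] [NeZero D] {H A : Type} [Group H]
    [Group A] (ψ : Q B C D →* MulAut H) (φ : Q B C D →* MulAut A) (e : H ≃* A)
    (h1 : ∀ x, e (ψ (gB B C D) x) = φ (gB B C D) (e x))
    (h2 : ∀ x, e (ψ (gC B C D) x) = φ (gC B C D) (e x))
    (h3 : ∀ x, e (ψ (gD B C D) x) = φ (gD B C D) (e x)) (q : Q B C D) (x : H) :
    e (ψ q x) = φ q (e x) := by
  have key : (MulAut.congr e).toMonoidHom.comp ψ = φ := by
    refine Q_hom_ext _ _ ?_ ?_ ?_
    · refine MulEquiv.ext fun y => ?_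
      have := h1 (e.symm y)
      simp at this
      simpa [MulAut.congr] using this
    · refine MulEquiv.ext fun y => ?_
      have := h2 (e.symm y)
      simp at this
      simpa [MulAut.congr] using this
    · refine MulEquiv.ext fun y => ?_
      have := h3 (e.symm y)
      simp at this
      simpa [MulAut.congr] using this
  have := congrArg (fun f => f q (e x)) key
  simpa [MulAut.congr] using this

end Pool.Agent.helper74.GN
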