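import Pool.Agent.helper18.GN.Hom
import Pool.Agent.helper74.GN.Shape

/-!
# GNU project (MP_d11331_al): the menu of order `v ^ 2`
-/

namespace Pool.Agent.helper74.GN

/-- A group of order `v ^ 2` is commutative. -/
theorem comm_sq {v : ℕ} (hv : v.Prime) (H : Type) [Group H] (hH : Nat.card H = v ^ 2) (x y : H) :
    x * y = y * x := by
  have := Fact.mk hv
  exact (IsPGroup.commutative_of_card_eq_prime_sq hH) x y

/-- The full stabiliser of a homomorphism. -/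
def fullStab {B C D : ℕ} {A : Type} [Group A] (φ : Q B C D →* MulAut A) :
    Subgroup (Th B C D) where
  carrier := {θ | ∃ e : A ≃* A, ∀ q x, e (φ (tw θ q) x) = φ q (e x)}
  mul_mem' := by
    rintro θ η ⟨e, he⟩ ⟨f, hf⟩
    refine ⟨e.trans f, fun q x => ?_⟩
    rw [tw_mul]
    show f (e _) = φ q (f (e x))
    rw [he, hf]
  one_mem' := ⟨MulEquiv.refl A, fun q x => by rw [tw_one]; rfl⟩
  inv_mem' := by
    rintro θ ⟨e, he⟩
    refine ⟨e.symm, fun q x => ?_⟩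
    have h := he (tw θ⁻¹ q) (e.symm x)
    rw [← tw_mul, mul_inv_cancel, tw_one, MulEquiv.apply_symm_apply] at h
    rw [MulEquiv.symm_apply_eq, h]

/-- The weak relation between two actions. -/
def WR {B C D : ℕ} {A A' : Type} [Group A] [Group A'] (ψ : Q B C D →* MulAut A)
    (ψ' : Q B C D →* MulAut A') (θ : Th B C D) : Prop :=
  ∃ e : A ≃* A', ∀ q, ∃ a : A', ∀ x, e (ψ (tw θ q) x) = a * ψ' q (e x) * a⁻¹

/-- Part of a menu: the actions with the property `P`. -/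
structure PM (B C D N : ℕ) (τ : Type)
    (P : ∀ (H : Type) [Group H], (Q B C D →* MulAut H) → Prop) where
  A : τ → Type
  gr : ∀ t, Group (A t)
  card : ∀ t, Nat.card (A t) = N
  φ : ∀ t, Q B C D →* MulAut (A t)
  S : τ → Subgroup (Th B C D)
  stab : ∀ t, ∀ θ ∈ S t, ∃ e : A t ≃* A t, ∀ q x, e (φ t (tw θ q) x) = φ t q (e x)
  good : ∀ t, P (A t) (φ t)
  complete : ∀ (H : Type) [Group H], Nat.card H = N → ∀ ψ : Q B C D →* MulAut H, P H ψ →
    ∃ (t : τ) (θ : Th B C D) (e : H ≃* A t), ∀ q x, e (ψ q x) = φ t (tw θ q) (e x)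
  inj : ∀ (t t' : τ) (θ : Th B C D), WR (φ t) (φ t') θ → t = t' ∧ θ ∈ S t

attribute [instance] PM.gr

/-- The sum of two partial menus. -/
def PM.add {B C D N : ℕ} {τ₁ τ₂ : Type}
    {P₁ P₂ : ∀ (H : Type) [Group H], (Q B C D →* MulAut H) → Prop}
    (M₁ : PM B C D N τ₁ P₁) (M₂ : PM B C D N τ₂ P₂)
    (hinv : ∀ (A A' : Type) [Group A] [Group A'] (ψ : Q B C D →* MulAut A)
      (ψ' : Q B C D →* MulAut A') (θ : Th B C D), Nat.card A = N → Nat.card A' = N →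
      WR ψ ψ' θ → (P₁ A ψ ↔ P₁ A' ψ'))
    (hdis : ∀ (A : Type) [Group A] (ψ : Q B C D →* MulAut A), P₁ A ψ → ¬ P₂ A ψ) :
    PM B C D N (τ₁ ⊕ τ₂) (fun H _ ψ => P₁ H ψ ∨ P₂ H ψ) where
  A := Sum.elim M₁.A M₂.A
  gr := fun t => match t with
    | .inl t => M₁.gr t
    | .inr t => M₂.gr t
  card := fun t => match t with
    | .inl t => M₁.card t
    | .inr t => M₂.card t
  φ := fun t => match t with
    | .inl t => M₁.φ t
    | .inr t => M₂.φ t
  S := fun t => match t with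
    | .inl t => M₁.S t
    | .inr t => M₂.S t
  stab := fun t => match t with
    | .inl t => M₁.stab t
    | .inr t => M₂.stab t
  good := fun t => match t with
    | .inl t => Or.inl (M₁.good t)
    | .inr t => Or.inr (M₂.good t)
  complete := fun H _ hH ψ hψ => by
    rcases hψ with hψ | hψ
    · obtain ⟨t, θ, e, he⟩ := M₁.complete H hH ψ hψ
      exact ⟨.inl t, θ, e, he⟩
    · obtain ⟨t, θ, e, he⟩ := M₂.complete H hH ψ hψ
      exact ⟨.inr t, θ, e, he⟩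
  inj := fun t t' θ => match t, t' with
    | .inl t, .inl t' => fun hw => by
      obtain ⟨h1, h2⟩ := M₁.inj t t' θ hw
      exact ⟨congrArg Sum.inl h1, h2⟩
    | .inr t, .inr t' => fun hw => by
      obtain ⟨h1, h2⟩ := M₂.inj t t' θ hw
      exact ⟨congrArg Sum.inr h1, h2⟩
    | .inl t, .inr t' => fun hw => by
      let _ := M₁.gr t
      let _ := M₂.gr t'
      have := (hinv _ _ (M₁.φ t) (M₂.φ t') θ (M₁.card t) (M₂.card t') hw).1 (M₁.good t)
      exact absurd (M₂.good t') (hdis _ _ this)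
    | .inr t, .inl t' => fun hw => by
      let _ := M₂.gr t
      let _ := M₁.gr t'
      have := (hinv _ _ (M₂.φ t) (M₁.φ t') θ (M₂.card t) (M₁.card t') hw).2 (M₁.good t')
      exact absurd (M₂.good t) (hdis _ _ this)

/-- A partial menu whose property always holds is a menu. -/
def PM.toMenu {B C D N : ℕ} {τ : Type} [Fintype τ]
    {P : ∀ (H : Type) [Group H], (Q B C D →* MulAut H) → Prop} (M : PM B C D N τ P)
    (hP : ∀ (H : Type) [Group H] (ψ : Q B C D →* MulAut H), P H ψ) : Menu B C D N where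
  τ := τ
  ft := inferInstance
  A := M.A
  gr := M.gr
  card := M.card
  φ := M.φ
  S := M.S
  stab := M.stab
  complete := fun H _ hH ψ => M.complete H hH ψ (hP H ψ)
  inj := M.inj

/-! ## The three properties -/

/-- `ψ` is trivial on the generator of `C_B`. -/
def TB {B C D : ℕ} {H : Type} [Group H] (ψ : Q B C D →* MulAut H) : Prop := ψ (gB B C D) = 1
/-- `ψ` is trivial on the generator of `C_C`. -/
def TC {B C D : ℕ} {H : Type} [Group H] (ψ : Q B C D →* MulAut H) : Prop := ψ (gC B C D) = 1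
/-- `ψ` is trivial on the generator of `C_D`. -/
def TD {B C D : ℕ} {H : Type} [Group H] (ψ : Q B C D →* MulAut H) : Prop := ψ (gD B C D) = 1

theorem tw_gB_one {B C D : ℕ} [NeZero B] {M : Type} [Group M] (f : Q B C D →* M)
    (θ : Th B C D) : f (tw θ (gB B C D)) = 1 ↔ f (gB B C D) = 1 := by
  constructor
  · intro h
    have h1 : tw θ (tw θ⁻¹ (gB B C D)) = gB B C D := by rw [← tw_mul, mul_inv_cancel, tw_one]
    rw [tw_gB, map_pow] at h1
    rw [← h1, map_pow, h, one_pow]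
  · intro h
    rw [tw_gB, map_pow, h, one_pow]

theorem tw_gC_one {B C D : ℕ} [NeZero C] {M : Type} [Group M] (f : Q B C D →* M)
    (θ : Th B C D) : f (tw θ (gC B C D)) = 1 ↔ f (gC B C D) = 1 := by
  constructor
  · intro h
    have h1 : tw θ (tw θ⁻¹ (gC B C D)) = gC B C D := by rw [← tw_mul, mul_inv_cancel, tw_one]
    rw [tw_gC, map_pow] at h1
    rw [← h1, map_pow, h, one_pow]
  · intro h
    rw [tw_gC, map_pow, h, one_pow]

theorem tw_gD_one {B C D : ℕ} [NeZero D] {M : Type} [Group M] (f : Q B C D →* M)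
    (θ : Th B C D) : f (tw θ (gD B C D)) = 1 ↔ f (gD B C D) = 1 := by
  constructor
  · intro h
    have h1 : tw θ (tw θ⁻¹ (gD B C D)) = gD B C D := by rw [← tw_mul, mul_inv_cancel, tw_one]
    rw [tw_gD, map_pow] at h1
    rw [← h1, map_pow, h, one_pow]
  · intro h
    rw [tw_gD, map_pow, h, one_pow]

/-- In the commutative case the weak relation is the strong one. -/
theorem strong_of_comm {B C D : ℕ} {A A' : Type} [Group A] [Group A']
    (hc : ∀ x y : A', x * y = y * x) {ψ : Q B C D →* MulAut A}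
    {ψ' : Q B C D →* MulAut A'} {θ : Th B C D} (e : A ≃* A')
    (h : ∀ q, ∃ a : A', ∀ x, e (ψ (tw θ q) x) = a * ψ' q (e x) * a⁻¹) (q : Q B C D) (x : A) :
    e (ψ (tw θ q) x) = ψ' q (e x) := by
  obtain ⟨a, ha⟩ := h q
  rw [ha x, hc a, mul_inv_cancel_right]

theorem one_iff {B C D : ℕ} {A A' : Type} [Group A] [Group A']
    {ψ : Q B C D →* MulAut A} {ψ' : Q B C D →* MulAut A'} {θ : Th B C D} (e : A ≃* A')
    (h : ∀ q x, e (ψ (tw θ q) x) = ψ' q (e x)) (q : Q B C D) :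
    ψ (tw θ q) = 1 ↔ ψ' q = 1 := by
  constructor
  · intro h1
    refine MulEquiv.ext fun y => ?_
    have := h q (e.symm y)
    rw [h1] at this
    simpa using this.symm
  · intro h1
    refine MulEquiv.ext fun x => ?_
    have := h q x
    rw [h1] at this
    exact e.injective this

theorem T_iff {B C D v : ℕ} [NeZero B] [NeZero C] [NeZero D] (hv : v.Prime) (A A' : Type)
    [Group A] [Group A'] (ψ : Q B C D →* MulAut A) (ψ' : Q B C D →* MulAut A') (θ : Th B C D)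
    (hA' : Nat.card A' = v ^ 2) (h : WR ψ ψ' θ) :
    (TB ψ ↔ TB ψ') ∧ (TC ψ ↔ TC ψ') ∧ (TD ψ ↔ TD ψ') := by
  obtain ⟨e, he⟩ := h
  have hs := strong_of_comm (comm_sq hv A' hA') e he
  refine ⟨?_, ?_, ?_⟩
  · rw [TB, TB, ← one_iff e hs, tw_gB_one]
  · rw [TC, TC, ← one_iff e hs, tw_gC_one]
  · rw [TD, TD, ← one_iff e hs, tw_gD_one]

/-! ## The three parts -/

/-- Trivial actions. -/
theorem pm1 {B C D v : ℕ} [NeZero B] [NeZero C] [NeZero D] (hp2 : Classified (v ^ 2) (Fin 2)) :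
    ∃ M : PM B C D (v ^ 2) (Fin 2) (fun _ _ ψ => TB ψ ∧ TC ψ ∧ TD ψ), ∀ t, M.S t = ⊤ := by
  obtain ⟨G, gG, cG, iG, kG⟩ := hp2
  refine ⟨{ A := G, gr := gG, card := cG, φ := fun _ => 1, S := fun _ => ⊤,
            stab := fun t θ _ => ⟨MulEquiv.refl _, fun q x => rfl⟩,
            good := fun t => ⟨rfl, rfl, rfl⟩,
            complete := ?_, inj := ?_ }, fun t => rfl⟩
  · intro H _ hH ψ hψ
    obtain ⟨i, ⟨e⟩⟩ := kG H hH
    refine ⟨i, 1, e, fun q x => ?_⟩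
    have h1 : ψ = 1 := Q_hom_ext _ _ hψ.1 hψ.2.1 hψ.2.2
    rw [h1]
    rfl
  · intro t t' θ hw
    obtain ⟨e, -⟩ := hw
    exact ⟨iG t t' ⟨e⟩, Subgroup.mem_top _⟩

/-- Statement of the block `C`. -/
def StC (C v : ℕ) : Prop :=
  ∃ (A : Fin (1 + (C + 3) / 2) → Type) (_ : ∀ i, CommGroup (A i))
    (γ : ∀ i, MulAut (A i)), (∀ i, Nat.card (A i) = v ^ 2) ∧ (∀ i, γ i ^ C = 1) ∧
    (∀ i, γ i ≠ 1) ∧
    (∀ (H : Type) [Group H], Nat.card H = v ^ 2 → ∀ c : MulAut H, c ^ C = 1 → c ≠ 1 →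
      ∃ (i : _) (u : (ZMod C)ˣ) (e : H ≃* A i), ∀ x, e (c x) = (γ i ^ (u : ZMod C).val) (e x)) ∧
    (∀ i j (u : (ZMod C)ˣ), (∃ e : A i ≃* A j, ∀ x,
      e ((γ i ^ (u : ZMod C).val) x) = γ j (e x)) → i = j)

/-- Only `C` acts. -/
theorem pm2 {B C D v : ℕ} [NeZero B] [NeZero C] [NeZero D] (hB : B ≠ 1) (hC : C ≠ 1)
    (hD : D ≠ 1) (hv : v.Prime) (hs : StC C v) :
    ∃ M : PM B C D (v ^ 2) (Fin (1 + (C + 3) / 2)) (fun _ _ ψ => TB ψ ∧ ¬ TC ψ ∧ TD ψ),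
      ∀ t, ∀ θ : Th B C D, θ.2.1 = 1 → θ ∈ M.S t := by
  obtain ⟨A, gA, γ, cA, gC1, gn, kA, iA⟩ := hs
  obtain ⟨Φ, eB, eC, eD⟩ : ∃ Φ : ∀ i, Q B C D →* MulAut (A i), (∀ i, Φ i (gB B C D) = 1) ∧
      (∀ i, Φ i (gC B C D) = γ i) ∧ (∀ i, Φ i (gD B C D) = 1) :=
    ⟨fun i => act 1 (γ i) 1 (one_pow _) (gC1 i) (one_pow _) (Commute.one_left _)
      (Commute.one_left _) (Commute.one_right _), fun i => act_gB hB _ _ _ _ _ _ _ _ _,
      fun i => act_gC hC _ _ _ _ _ _ _ _ _, fun i => act_gD hD _ _ _ _ _ _ _ _ _⟩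
  refine ⟨{ A := A, gr := fun i => (gA i).toGroup, card := cA, φ := Φ, S := fun i => fullStab (Φ i),
            stab := fun t θ h => h,
            good := fun t => ⟨eB t, fun h => gn t ((eC t).symm.trans h), eD t⟩,
            complete := ?_, inj := ?_ }, fun t θ hθ => ?_⟩
  · intro H _ hH ψ hψ
    obtain ⟨h1, h2, h3⟩ := hψ
    obtain ⟨i, u, e, he⟩ := kA H hH (ψ (gC B C D)) (by rw [← map_pow, gC_pow, map_one]) h2
    have key := inter_of_gen ψ ((Φ i).comp (tw (1, u, 1)).toMonoidHom) e ?_ ?_ ?_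
    · exact ⟨i, (1, u, 1), e, key⟩
    · intro x
      rw [h1]
      show e x = Φ i (tw (1, u, 1) (gB B C D)) (e x)
      rw [(tw_gB_one (Φ i) (1, u, 1)).2 (eB i)]
      rfl
    · intro x
      rw [he x]
      show _ = Φ i (tw (1, u, 1) (gC B C D)) (e x)
      rw [tw_gC, map_pow, eC]
    · intro x
      rw [h3]
      show e x = Φ i (tw (1, u, 1) (gD B C D)) (e x)
      rw [(tw_gD_one (Φ i) (1, u, 1)).2 (eD i)]
      rfl
  · intro t t' θ hw
    obtain ⟨e, he⟩ := hw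
    have hs := strong_of_comm (comm_sq hv _ (cA t')) e he
    have h1 : t = t' := by
      refine iA t t' θ.2.1 ⟨e, fun x => ?_⟩
      have := hs (gC B C D) x
      rw [tw_gC, map_pow, eC, eC] at this
      exact this
    subst h1
    exact ⟨rfl, e, hs⟩
  · have key := inter_of_gen ((Φ t).comp (tw θ).toMonoidHom) (Φ t) (MulEquiv.refl _) ?_ ?_ ?_
    · exact ⟨MulEquiv.refl _, key⟩
    · intro x
      show Φ t (tw θ (gB B C D)) x = Φ t (gB B C D) x
      rw [(tw_gB_one (Φ t) θ).2 (eB t), eB]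
    · intro x
      show Φ t (tw θ (gC B C D)) x = Φ t (gC B C D) x
      rw [tw_gC, hθ]
      simp [ZMod.val_one'' hC]
    · intro x
      show Φ t (tw θ (gD B C D)) x = Φ t (gD B C D) x
      rw [(tw_gD_one (Φ t) θ).2 (eD t), eD]

/-- Statement of the block `B, D`. -/
def StBD (B C D v : ℕ) : Prop :=
    ∃ (A : Type) (_ : CommGroup A) (β γ δ : MulAut A), Nat.card A = v ^ 2 ∧
      Commute β γ ∧ Commute β δ ∧ Commute γ δ ∧ β ^ B = 1 ∧ γ ^ C = 1 ∧ δ ^ D = 1 ∧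
      β ≠ 1 ∧ γ ≠ 1 ∧ δ ≠ 1 ∧
      (∀ (H : Type) [Group H], Nat.card H = v ^ 2 → ∀ b c d : MulAut H, b ^ B = 1 → c ^ C = 1 →
        d ^ D = 1 → Commute b c → Commute b d → Commute c d → ¬ (b = 1 ∧ d = 1) →
        ∃ (i : ZMod B) (j : ZMod C) (k : ZMod D) (e : H ≃* A), ∀ x,
          e (b x) = (β ^ i.val) (e x) ∧ e (c x) = (γ ^ j.val) (e x) ∧
          e (d x) = (δ ^ k.val) (e x)) ∧
      (∃ e : A ≃* A, ∀ x, e (β⁻¹ x) = β (e x) ∧ e (γ x) = γ (e x) ∧ e (δ⁻¹ x) = δ (e x)) ∧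
      (∀ (i i' : ZMod B) (j j' : ZMod C) (k k' : ZMod D), ¬ (i = 0 ∧ k = 0) →
        (∃ e : A ≃* A, ∀ x, e ((β ^ i.val) x) = (β ^ i'.val) (e x) ∧
          e ((γ ^ j.val) x) = (γ ^ j'.val) (e x) ∧ e ((δ ^ k.val) x) = (δ ^ k'.val) (e x)) →
        j = j' ∧ ((i = i' ∧ k = k') ∨ (i = -i' ∧ k = -k')))

theorem pow_val_mul {n : ℕ} {M : Type} [Group M] {g : M} (hg : g ^ n = 1) (a b : ZMod n) :
    g ^ (a * b).val = (g ^ a.val) ^ b.val := by
  rw [ZMod.val_mul, ← pow_eq_pow_mod _ hg, pow_mul]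

theorem pow_val_neg_one {n : ℕ} [NeZero n] {M : Type} [Group M] {g : M} (hg : g ^ n = 1) :
    g ^ (-1 : ZMod n).val = g⁻¹ := by
  have h1 : g ^ ((-1 : ZMod n).val + (1 : ZMod n).val) = 1 := by
    rw [pow_eq_pow_mod _ hg, ← ZMod.val_add]
    simp
  have h2 : g ^ (1 : ZMod n).val = g := by
    have : (1 : ZMod n).val = 1 % n := ZMod.val_one_eq_one_mod n
    rw [this, ← pow_eq_pow_mod _ hg, pow_one]
  rw [pow_add, h2] at h1
  exact eq_inv_of_mul_eq_one_left h1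

/-- Exponent of `β` on the type `i`. -/
def xB (B : ℕ) (i : Fin 3) : ZMod B := if i = 1 then 0 else 1
/-- Exponent of `γ`. -/
def xC (C : ℕ) (c : Fin 2) : ZMod C := if c = 0 then 0 else 1
/-- Exponent of `δ` on the type `i`. -/
def xD (D : ℕ) (i : Fin 3) : ZMod D := if i = 0 then 0 else 1

theorem xBD_exists {B D : ℕ} [Fact B.Prime] [Fact D.Prime] (i : ZMod B) (k : ZMod D)
    (h : ¬ (i = 0 ∧ k = 0)) :
    ∃ (a : Fin 3) (u : (ZMod B)ˣ) (w : (ZMod D)ˣ), i = xB B a * u ∧ k = xD D a * w := by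
  by_cases hi : i = 0
  · have hk : k ≠ 0 := fun hk => h ⟨hi, hk⟩
    exact ⟨1, 1, Units.mk0 k hk, by simp [xB, hi], by simp [xD]⟩
  · by_cases hk : k = 0
    · exact ⟨0, Units.mk0 i hi, 1, by simp [xB], by simp [xD, hk]⟩
    · exact ⟨2, Units.mk0 i hi, Units.mk0 k hk, by simp [xB], by simp [xD]⟩

theorem xC_exists {C : ℕ} [Fact C.Prime] (j : ZMod C) :
    ∃ (c : Fin 2) (u : (ZMod C)ˣ), j = xC C c * u := by
  by_cases hj : j = 0
  · exact ⟨0, 1, by simp [xC, hj]⟩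
  · exact ⟨1, Units.mk0 j hj, by simp [xC]⟩

theorem units_eq_neg_one {n : ℕ} {u : (ZMod n)ˣ} : (u : ZMod n) = -1 ↔ u = -1 := by
  rw [Units.ext_iff]; simp

theorem xx_inj {B C D : ℕ} [Fact B.Prime] [Fact C.Prime] [Fact D.Prime] (a a' : Fin 3)
    (c c' : Fin 2) (θ : Th B C D) (h1 : xC C c * θ.2.1 = xC C c')
    (h2 : (xB B a * θ.1 = xB B a' ∧ xD D a * θ.2.2 = xD D a') ∨
      (xB B a * θ.1 = - xB B a' ∧ xD D a * θ.2.2 = - xD D a')) :
    (a, c) = (a', c') ∧ θ ∈ TT B C D a c := by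
  show _ ∧ ((c = 1 → θ.2.1 = 1) ∧ (a = 0 → (θ.1 = 1 ∨ θ.1 = -1)) ∧
    (a = 1 → (θ.2.2 = 1 ∨ θ.2.2 = -1)) ∧
    (a = 2 → ((θ.1 = 1 ∧ θ.2.2 = 1) ∨ (θ.1 = -1 ∧ θ.2.2 = -1))))
  have hc : c = c' ∧ (c = 1 → θ.2.1 = 1) := by
    fin_cases c <;> fin_cases c' <;> simp [xC] at h1 ⊢
    exact h1
  have ha : a = a' ∧ (a = 0 → (θ.1 = 1 ∨ θ.1 = -1)) ∧
    (a = 1 → (θ.2.2 = 1 ∨ θ.2.2 = -1)) ∧
    (a = 2 → ((θ.1 = 1 ∧ θ.2.2 = 1) ∨ (θ.1 = -1 ∧ θ.2.2 = -1))) := by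
    fin_cases a <;> fin_cases a' <;> simp [xB, xD] at h2 ⊢ <;> exact h2
  exact ⟨by rw [ha.1, hc.1], hc.2, ha.2⟩

/-- `B` or `D` acts. -/
theorem pm3 {B C D v : ℕ} [Fact B.Prime] [Fact C.Prime] [Fact D.Prime] (hv : v.Prime)
    (hs : StBD B C D v) :
    ∃ M : PM B C D (v ^ 2) (Fin 3 × Fin 2) (fun _ _ ψ => ¬ (TB ψ ∧ TD ψ)),
      ∀ i c, M.S (i, c) = TT B C D i c ∧ (TD (M.φ (i, c)) ↔ i = 0) := by
  have hB : B ≠ 1 := (Fact.out : B.Prime).one_lt.ne'
  have hC : C ≠ 1 := (Fact.out : C.Prime).one_lt.ne'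
  have hD : D ≠ 1 := (Fact.out : D.Prime).one_lt.ne'
  obtain ⟨A, gA, β, γ, δ, cA, cβγ, cβδ, cγδ, hβ, hγ, hδ, nβ, nγ, nδ, kA, ⟨F, hF⟩, iA⟩ := hs
  have hpB : ∀ m : ℕ, (β ^ m) ^ B = 1 := fun m => by rw [← pow_mul, mul_comm, pow_mul, hβ, one_pow]
  have hpC : ∀ m : ℕ, (γ ^ m) ^ C = 1 := fun m => by rw [← pow_mul, mul_comm, pow_mul, hγ, one_pow]
  have hpD : ∀ m : ℕ, (δ ^ m) ^ D = 1 := fun m => by rw [← pow_mul, mul_comm, pow_mul, hδ, one_pow]
  obtain ⟨Φ, eB, eC, eD⟩ : ∃ Φ : Fin 3 × Fin 2 → (Q B C D →* MulAut A),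
      (∀ t, Φ t (gB B C D) = β ^ (xB B t.1).val) ∧ (∀ t, Φ t (gC B C D) = γ ^ (xC C t.2).val) ∧
      (∀ t, Φ t (gD B C D) = δ ^ (xD D t.1).val) :=
    ⟨fun t => act (β ^ (xB B t.1).val) (γ ^ (xC C t.2).val) (δ ^ (xD D t.1).val) (hpB _) (hpC _)
      (hpD _) (cβγ.pow_pow _ _) (cβδ.pow_pow _ _) (cγδ.pow_pow _ _),
      fun i => act_gB hB _ _ _ _ _ _ _ _ _,
      fun i => act_gC hC _ _ _ _ _ _ _ _ _, fun i => act_gD hD _ _ _ _ _ _ _ _ _⟩
  have eB' : ∀ t (θ : Th B C D), Φ t (tw θ (gB B C D)) = β ^ (xB B t.1 * θ.1).val := fun t θ => by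
    rw [tw_gB, map_pow, eB, pow_val_mul hβ]
  have eC' : ∀ t (θ : Th B C D), Φ t (tw θ (gC B C D)) = γ ^ (xC C t.2 * θ.2.1).val :=
    fun t θ => by rw [tw_gC, map_pow, eC, pow_val_mul hγ]
  have eD' : ∀ t (θ : Th B C D), Φ t (tw θ (gD B C D)) = δ ^ (xD D t.1 * θ.2.2).val :=
    fun t θ => by rw [tw_gD, map_pow, eD, pow_val_mul hδ]
  have v1B : (1 : ZMod B).val = 1 := ZMod.val_one'' hB
  have v1C : (1 : ZMod C).val = 1 := ZMod.val_one'' hC
  have v1D : (1 : ZMod D).val = 1 := ZMod.val_one'' hD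
  have dT : ∀ t, TD (Φ t) ↔ t.1 = 0 := by
    rintro ⟨a, c⟩
    rw [TD, eD]
    fin_cases a <;> simp [xD, v1D, nδ]
  refine ⟨{ A := fun _ => A, gr := fun i => gA.toGroup, card := fun _ => cA, φ := Φ,
            S := fun t => TT B C D t.1 t.2, stab := ?_, good := ?_,
            complete := ?_, inj := ?_ }, fun i c => ⟨rfl, dT (i, c)⟩⟩
  · rintro ⟨a, c⟩ θ hθ
    have hθ' : (c = 1 → θ.2.1 = 1) ∧ (a = 0 → (θ.1 = 1 ∨ θ.1 = -1)) ∧
      (a = 1 → (θ.2.2 = 1 ∨ θ.2.2 = -1)) ∧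
      (a = 2 → ((θ.1 = 1 ∧ θ.2.2 = 1) ∨ (θ.1 = -1 ∧ θ.2.2 = -1))) := hθ
    obtain ⟨h1, h2, h3, h4⟩ := hθ'
    have hc : xC C c * θ.2.1 = xC C c := by
      by_cases hc0 : c = 0
      · simp [xC, hc0]
      · have : c = 1 := by omega
        rw [h1 this]
        simp
    have key0 : ∀ e : A ≃* A,
        (∀ x, e ((β ^ (xB B a * θ.1).val) x) = (β ^ (xB B a).val) (e x)) →
        (∀ x, e ((γ ^ (xC C c * θ.2.1).val) x) = (γ ^ (xC C c).val) (e x)) →
        (∀ x, e ((δ ^ (xD D a * θ.2.2).val) x) = (δ ^ (xD D a).val) (e x)) →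
        ∃ e : A ≃* A, ∀ q x, e (Φ (a, c) (tw θ q) x) = Φ (a, c) q (e x) := by
      intro e k1 k2 k3
      have key := inter_of_gen ((Φ (a, c)).comp (tw θ).toMonoidHom) (Φ (a, c)) e ?_ ?_ ?_
      · exact ⟨e, key⟩
      · intro x
        show e (Φ (a, c) (tw θ (gB B C D)) x) = _
        rw [eB', eB]
        exact k1 x
      · intro x
        show e (Φ (a, c) (tw θ (gC B C D)) x) = _
        rw [eC', eC]
        exact k2 x
      · intro x
        show e (Φ (a, c) (tw θ (gD B C D)) x) = _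
        rw [eD', eD]
        exact k3 x
    have hγF : ∀ (m : ℕ) x, F ((γ ^ m) x) = (γ ^ m) (F x) := by
      intro m
      induction m with
      | zero => intro x; simp
      | succ m ih =>
        intro x
        rw [pow_succ]
        show F ((γ ^ m) (γ x)) = (γ ^ m) (γ (F x))
        rw [ih, (hF x).2.1]
    have hβF : ∀ x, F ((β ^ (-1 : ZMod B).val) x) = β (F x) := fun x => by
      rw [pow_val_neg_one hβ]; exact (hF x).1
    have hδF : ∀ x, F ((δ ^ (-1 : ZMod D).val) x) = δ (F x) := fun x => by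
      rw [pow_val_neg_one hδ]; exact (hF x).2.2
    have hplus : xB B a * θ.1 = xB B a → xD D a * θ.2.2 = xD D a →
        ∃ e : A ≃* A, ∀ q x, e (Φ (a, c) (tw θ q) x) = Φ (a, c) q (e x) := by
      intro g1 g2
      refine key0 (MulEquiv.refl _) ?_ ?_ ?_
      · intro x; rw [g1]; rfl
      · intro x; rw [hc]; rfl
      · intro x; rw [g2]; rfl
    have hminus : (a ≠ 1 → θ.1 = -1) → (a ≠ 0 → θ.2.2 = -1) →
        ∃ e : A ≃* A, ∀ q x, e (Φ (a, c) (tw θ q) x) = Φ (a, c) q (e x) := by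
      intro g1 g2
      refine key0 F ?_ ?_ ?_
      · intro x
        by_cases ha : a = 1
        · simp [xB, ha]
        · rw [g1 ha]
          simp only [xB, ha, if_false, Units.val_neg, Units.val_one, one_mul, v1B, pow_one]
          exact hβF x
      · intro x; rw [hc]; exact hγF _ x
      · intro x
        by_cases ha : a = 0
        · simp [xD, ha]
        · rw [g2 ha]
          simp only [xD, ha, if_false, Units.val_neg, Units.val_one, one_mul, v1D, pow_one]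
          exact hδF x
    have h012 : a = 0 ∨ a = 1 ∨ a = 2 := by omega
    rcases h012 with ha | ha | ha
    · rcases h2 ha with h | h
      · exact hplus (by rw [h]; simp) (by simp [xD, ha])
      · exact hminus (fun _ => h) (fun h' => absurd ha h')
    · rcases h3 ha with h | h
      · exact hplus (by simp [xB, ha]) (by rw [h]; simp)
      · exact hminus (fun h' => absurd ha h') (fun _ => h)
    · rcases h4 ha with ⟨h, h'⟩ | ⟨h, h'⟩
      · exact hplus (by rw [h]; simp) (by rw [h']; simp)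
      · exact hminus (fun _ => h) (fun _ => h')
  · rintro ⟨a, c⟩ ⟨g1, g2⟩
    have g1' : β ^ (xB B a).val = 1 := (eB (a, c)).symm.trans g1
    have g2' : a = 0 := (dT (a, c)).1 g2
    subst g2'
    simp [xB, v1B, nβ] at g1'
  · intro H _ hH ψ hψ
    obtain ⟨i, j, k, e, he⟩ := kA H hH (ψ (gB B C D)) (ψ (gC B C D)) (ψ (gD B C D))
      (by rw [← map_pow, gB_pow, map_one]) (by rw [← map_pow, gC_pow, map_one])
      (by rw [← map_pow, gD_pow, map_one]) ((Commute.all _ _).map ψ) ((Commute.all _ _).map ψ)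
      ((Commute.all _ _).map ψ) hψ
    have hik : ¬ (i = 0 ∧ k = 0) := by
      rintro ⟨hi, hk⟩
      subst hi hk
      refine hψ ⟨MulEquiv.ext fun x => e.injective ?_, MulEquiv.ext fun x => e.injective ?_⟩
      · rw [(he x).1]; simp
      · rw [(he x).2.2]; simp
    obtain ⟨a, u, w, h1, h2⟩ := xBD_exists i k hik
    obtain ⟨c, u', h3⟩ := xC_exists j
    have key := inter_of_gen ψ ((Φ (a, c)).comp (tw (u, u', w)).toMonoidHom) e ?_ ?_ ?_
    · exact ⟨(a, c), (u, u', w), e, key⟩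
    · intro x
      show _ = Φ (a, c) (tw (u, u', w) (gB B C D)) (e x)
      rw [eB', (he x).1, h1]
    · intro x
      show _ = Φ (a, c) (tw (u, u', w) (gC B C D)) (e x)
      rw [eC', (he x).2.1, h3]
    · intro x
      show _ = Φ (a, c) (tw (u, u', w) (gD B C D)) (e x)
      rw [eD', (he x).2.2, h2]
  · rintro ⟨a, c⟩ ⟨a', c'⟩ θ hw
    obtain ⟨e, he⟩ := hw
    have hs := strong_of_comm (comm_sq hv A cA) e he
    have hne : ¬ (xB B a * (θ.1 : ZMod B) = 0 ∧ xD D a * (θ.2.2 : ZMod D) = 0) := by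
      rintro ⟨g1, g2⟩
      rw [Units.mul_left_eq_zero] at g1 g2
      by_cases ha : a = 1
      · simp [xD, ha] at g2
      · simp [xB, ha] at g1
    have := iA _ (xB B a') (xC C c * (θ.2.1 : ZMod C)) (xC C c') _ (xD D a') hne
      ⟨e, fun x => ⟨?_, ?_, ?_⟩⟩
    · exact xx_inj a a' c c' θ this.1 this.2
    · have := hs (gB B C D) x
      rw [eB', eB] at this
      exact this
    · have := hs (gC B C D) x
      rw [eC', eC] at this
      exact this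
    · have := hs (gD B C D) x
      rw [eD', eD] at this
      exact this

theorem menuV_of {B C D w v : ℕ} (h : HypQ B C D) (hv : HypV B C D w v)
    (hp2 : Classified (v ^ 2) (Fin 2)) (hsC : StC C v) (hsBD : StBD B C D v) :
    ∃ M : Menu B C D (v ^ 2), IsV M := by
  have := Fact.mk h.pB
  have := Fact.mk h.pC
  have := Fact.mk h.pD
  have hB : B ≠ 1 := h.pB.one_lt.ne'
  have hC : C ≠ 1 := h.pC.one_lt.ne'
  have hD : D ≠ 1 := h.pD.one_lt.ne'
  obtain ⟨M1, h1⟩ := pm1 (B := B) (C := C) (D := D) hp2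
  obtain ⟨M2, h2⟩ := pm2 (B := B) (D := D) hB hC hD hv.pv hsC
  obtain ⟨M3, h3⟩ := pm3 (v := v) hv.pv hsBD
  have hinv12 : ∀ (A A' : Type) [Group A] [Group A'] (ψ : Q B C D →* MulAut A)
      (ψ' : Q B C D →* MulAut A') (θ : Th B C D), Nat.card A = v ^ 2 → Nat.card A' = v ^ 2 →
      WR ψ ψ' θ → ((TB ψ ∧ TC ψ ∧ TD ψ) ↔ (TB ψ' ∧ TC ψ' ∧ TD ψ')) := by
    intro A A' _ _ ψ ψ' θ hA hA' hw
    obtain ⟨g1, g2, g3⟩ := T_iff hv.pv A A' ψ ψ' θ hA' hw
    rw [g1, g2, g3]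
  have hinv23 : ∀ (A A' : Type) [Group A] [Group A'] (ψ : Q B C D →* MulAut A)
      (ψ' : Q B C D →* MulAut A') (θ : Th B C D), Nat.card A = v ^ 2 → Nat.card A' = v ^ 2 →
      WR ψ ψ' θ → (((TB ψ ∧ TC ψ ∧ TD ψ) ∨ (TB ψ ∧ ¬ TC ψ ∧ TD ψ)) ↔
        ((TB ψ' ∧ TC ψ' ∧ TD ψ') ∨ (TB ψ' ∧ ¬ TC ψ' ∧ TD ψ'))) := by
    intro A A' _ _ ψ ψ' θ hA hA' hw
    obtain ⟨g1, g2, g3⟩ := T_iff hv.pv A A' ψ ψ' θ hA' hw
    rw [g1, g2, g3]
  let M12 := PM.add M1 M2 hinv12 (fun A _ ψ g g' => g'.2.1 g.2.1)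
  let M123 := PM.add M12 M3 hinv23 (fun A _ ψ g g' => g' (by
    rcases g with g | g
    · exact ⟨g.1, g.2.2⟩
    · exact ⟨g.1, g.2.2⟩))
  have hall : ∀ (H : Type) [Group H] (ψ : Q B C D →* MulAut H),
      ((TB ψ ∧ TC ψ ∧ TD ψ) ∨ (TB ψ ∧ ¬ TC ψ ∧ TD ψ)) ∨ ¬ (TB ψ ∧ TD ψ) := by
    intro H _ ψ
    tauto
  have hDT : ∀ {A : Type} [Group A] (φ : Q B C D →* MulAut A),
      (∀ z : Multiplicative (ZMod D), φ (1, 1, z) = 1) ↔ TD φ := by
    intro A _ φ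
    constructor
    · intro g
      exact g _
    · intro g z
      have hz : ((1, 1, z) : Q B C D) = gD B C D ^ (Multiplicative.toAdd z).val := by
        simp [gD, ofAdd_one_pow]
      rw [hz, map_pow, show φ (gD B C D) = 1 from g, one_pow]
  refine ⟨PM.toMenu M123 hall, ?_⟩
  let e1 : Fin 2 ⊕ Fin (1 + (C + 3) / 2) ≃ Fin (3 + (C + 3) / 2) :=
    finSumFinEquiv.trans (finCongr (by omega))
  let e2 : (Fin 2 ⊕ Fin (1 + (C + 3) / 2)) ⊕ (Fin 3 × Fin 2) ≃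
    Fin (3 + (C + 3) / 2) ⊕ (Fin 3 × Fin 2) := Equiv.sumCongr e1 (Equiv.refl _)
  refine ⟨e2, fun i => ?_, fun i c => ?_⟩
  · have hi : e2.symm (.inl i) = .inl (e1.symm i) := rfl
    show Menu.DT (PM.toMenu M123 hall) (e2.symm (.inl i)) ∧
      ∀ θ : Th B C D, θ.2.1 = 1 → θ ∈ (PM.toMenu M123 hall).S (e2.symm (.inl i))
    rw [hi]
    rcases e1.symm i with k | k
    · refine ⟨(hDT (M1.φ k)).2 (M1.good k).2.2, fun θ _ => ?_⟩
      show θ ∈ M1.S k
      rw [h1]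
      exact Subgroup.mem_top _
    · exact ⟨(hDT (M2.φ k)).2 (M2.good k).2.2, fun θ hθ => h2 k θ hθ⟩
  · have hi : e2.symm (.inr (i, c)) = .inr (i, c) := rfl
    show (PM.toMenu M123 hall).S (e2.symm (.inr (i, c))) = _ ∧
      (Menu.DT (PM.toMenu M123 hall) (e2.symm (.inr (i, c))) ↔ _)
    rw [hi]
    refine ⟨(h3 i c).1, ?_⟩
    exact (hDT (M3.φ (i, c))).trans (h3 i c).2

end Pool.Agent.helper74.GN
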